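import Pool.Agent.MP_fcbc9a_lc.Mg.Main

/-!
A four-group V of definable automorphisms of an infinite simple group S of finite Morley rank
without involutions has, for some involution ι of V, infinitely many fixed points in the
subgroup [C_S(ι), V].
-/

open Set

namespace Pool.Agent.Results.MP_fcbc9a_lc.FourGroup

open Pool.Agent.MP_fcbc9a_lc

universe u

theorem result (L : FirstOrder.Language.{u, u}) (S : Type u) [Group S] [L.Structure S]
    [Infinite S] [IsSimpleGroup S]
    (hmul : (univ : Set S).DefinableFun L fun v : Fin 2 → S => v 0 * v 1)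
    (hrk : FiniteMorleyRank L S) (hinv : ∀ x : S, x ^ 2 = 1 → x = 1)
    (V : Subgroup (MulAut S)) (hV : IsKleinFour V)
    (hdef : ∀ σ ∈ V, (univ : Set S).DefinableFun L fun v : Fin 1 → S => σ (v 0)) :
    ∃ ι ∈ V, ι ≠ 1 ∧
      {x : S | x ∈ Subgroup.closure {g : S | ∃ c, ι c = c ∧ ∃ σ ∈ V, g = c⁻¹ * σ c} ∧
        ∀ σ ∈ V, σ x = x}.Infinite := by
  classical
  have C : Ctx L S := ⟨hmul, hrk.imp fun n hn => hn S ⟨.refl L S⟩⟩
  have h : U2 S := C.u2 fun x hx => hinv x (by rwa [sq])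
  have hfin : Finite V := Nat.finite_of_card_ne_zero (by rw [hV.card_four]; decide)
  obtain ⟨a, b, ha, hb, hab⟩ : ∃ a b : V, a ≠ 1 ∧ b ≠ 1 ∧ a ≠ b := by
    have := Fintype.ofFinite V
    obtain ⟨x, y, z, h1, h2, h3⟩ := Fintype.two_lt_card_iff.1
      (show 2 < Fintype.card V by rw [IsKleinFour.card_four']; decide)
    by_cases hx : x = 1
    · exact ⟨y, z, hx ▸ h1.symm, hx ▸ h2.symm, h3⟩
    · by_cases hy : y = 1
      · exact ⟨x, z, hx, hy ▸ h3.symm, h2⟩
      · exact ⟨x, y, hx, hy, h1⟩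
  have hc : b * a = a * b := (IsKleinFour.isMulCommutative (G := V)).is_comm.comm b a
  have hab1 : a * b ≠ 1 := fun e => hab (by
    rw [← IsKleinFour.inv_eq_self b]; exact mul_eq_one_iff_eq_inv.1 e)
  let ψ : Fin 3 → V := ![a, b, a * b]
  have hψ1 : ∀ i, ψ i ≠ 1 := Fin.forall_fin_succ.2 ⟨ha, Fin.forall_fin_two.2 ⟨hb, hab1⟩⟩
  have e1 : a * (a * b) = b := by rw [← mul_assoc, IsKleinFour.mul_self, one_mul]
  have e2 : b * (a * b) = a := by rw [← hc, ← mul_assoc, IsKleinFour.mul_self, one_mul]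
  have e3 : a * b * a = b := by rw [← hc, mul_assoc, IsKleinFour.mul_self, mul_one]
  have e4 : a * b * b = a := by rw [mul_assoc, IsKleinFour.mul_self, mul_one]
  have hψ2 : ∀ i j k, i ≠ j → j ≠ k → i ≠ k → ψ i * ψ j = ψ k := by
    intro i j k h1 h2 h3
    fin_cases i <;> fin_cases j <;> fin_cases k <;>
      first | exact absurd rfl h1 | exact absurd rfl h2 | exact absurd rfl h3 | rfl | assumption
  let T : Tri S :=
    { φ := fun i => ψ i
      sq := fun i x => by
        rw [← MulAut.mul_apply, ← Subgroup.coe_mul, IsKleinFour.mul_self]; rfl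
      mul := fun i j k h1 h2 h3 x => by
        rw [← MulAut.mul_apply, ← Subgroup.coe_mul, hψ2 i j k h1 h2 h3]
      ne := fun i => by
        by_contra hn
        push Not at hn
        exact hψ1 i (Subtype.ext (MulEquiv.ext hn)) }
  obtain ⟨i, hi⟩ := main C h (T := T) fun i => hdef _ (ψ i).2
  refine ⟨ψ i, (ψ i).2, fun e => hψ1 i (Subtype.ext e), hi.mono fun x hx => ⟨?_, fun σ hσ => ?_⟩⟩
  · refine Subgroup.closure_mono (fun y hy => ?_) hx.1
    obtain ⟨j, hij⟩ := exists_ne i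
    refine ⟨(rt y)⁻¹, ?_, ψ j, (ψ j).2, ?_⟩
    · rw [map_inv, h.map_rt, show (ψ i : MulAut S) y = y from hy.1]
    · rw [map_inv, h.map_rt, show (ψ j : MulAut S) y = y⁻¹ from hy.2 j hij, h.rt_inv, inv_inv,
        h.rt_sq]
  · by_cases h1 : (⟨σ, hσ⟩ : V) = 1
    · rw [show σ = 1 from congrArg Subtype.val h1]; rfl
    · by_cases h2 : (⟨σ, hσ⟩ : V) = a
      · rw [show σ = (a : MulAut S) from congrArg Subtype.val h2]; exact hx.2 0
      · by_cases h3 : (⟨σ, hσ⟩ : V) = b
        · rw [show σ = (b : MulAut S) from congrArg Subtype.val h3]; exact hx.2 1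
        · rw [show σ = ((a * b : V) : MulAut S) from
            congrArg Subtype.val (IsKleinFour.eq_mul_of_ne_all ha hb hab h1 h2 h3)]
          exact hx.2 2

end Pool.Agent.Results.MP_fcbc9a_lc.FourGroup
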