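import Pool.Agent.MP_fcbc9a_lc.H58.Red
import Pool.Agent.MP_fcbc9a_lc.H58.Link

/-!
Let G be a group of finite Morley rank without involutions and E an elementary abelian 2-group,
of order at least 4, of definable automorphisms of G. If the fixed points of every subgroup of
index 2 of E form a soluble-by-finite group then G is soluble-by-finite.
-/

open Set

namespace Pool.Agent.Results.MP_fcbc9a_lc.SolubleCentralisers

open Pool.Agent.MP_fcbc9a_lc

universe u

theorem result (L : FirstOrder.Language.{u, u}) (G : Type u) [Group G] [L.Structure G]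
    (hmul : (univ : Set G).DefinableFun L fun v : Fin 2 → G => v 0 * v 1)
    (hrk : FiniteMorleyRank L G) (hinv : ∀ x : G, x ^ 2 = 1 → x = 1)
    (E : Subgroup (MulAut G)) (hE : ∀ σ ∈ E, σ ^ 2 = 1) (hcard : 4 ≤ Nat.card E)
    (hdef : ∀ σ ∈ E, (univ : Set G).DefinableFun L fun v : Fin 1 → G => σ (v 0))
    (hsol : ∀ H ≤ E, H.relIndex E = 2 →
      ∃ K : Subgroup (FixedPoints.subgroup H G), K.FiniteIndex ∧ Group.IsSolvable K) :
    ∃ K : Subgroup G, K.FiniteIndex ∧ Group.IsSolvable K := by
  let _ := H58.dsOf L G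
  have _ := H58.rg_of_fmr hmul hrk hinv
  have : Finite E := Nat.finite_of_card_ne_zero (by omega)
  have hd : ∀ σ ∈ E, H58.Dm1 σ := fun σ hσ => H58.dm_of_definableFun (hdef σ hσ)
  refine ⟨H58.cc ⊤, ⟨by simpa using (H58.df_top (G := G)).cc_relIndex⟩, H58.sol_iff.1
    (H58.sol_cc_top E (fun σ hσ => by rw [← sq, hE σ hσ]) (fun e => ?_) hd fun A hA h2 => ?_)⟩
  · rw [e, Subgroup.card_bot] at hcard
    omega
  · obtain ⟨K, hK, hs⟩ := hsol A hA h2
    have hD : H58.Df (H58.FixS A) :=
      H58.df_of_inter (s := (A : Set (MulAut G))) (F := H58.Fix)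
        (fun σ hσ => H58.df_fix (hd σ (hA hσ))) fun _ => H58.mem_FixS
    refine hD.cc_conn.sol_of_relIndex (K := K.map (H58.FixS A).subtype)
      ((H58.sol_iff.2 hs).map _) fun e => hK.index_ne_zero ?_
    exact (congrArg Subgroup.index (Subgroup.comap_map_eq_self_of_injective
      (Subgroup.subtype_injective _) K)).symm.trans
      (Subgroup.relIndex_eq_zero_of_le_right hD.cc_le e)

end Pool.Agent.Results.MP_fcbc9a_lc.SolubleCentralisers
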